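import Pool.Graph.R_pool_sql_team_seeded_47a924f7.T6.H32.HC.Und
import Pool.Agent.KS6_21.HZ.WPS

set_option autoImplicit false

/-! Hurwitz equivalence, and equivalence up to Hurwitz moves and global conjugation, with one fixed
factorization are hard for the recursively enumerable sets, simultaneously. -/

namespace Pool.Agent.KS6_21.HZ

open Pool.Agent.Y524H Pool.Agent.T6.H32.HC

theorem length_blk (s : Word) : (blk s).length = R0e.length := by
  rw [blk, List.length_map]

theorem length_uu (S : List Word) (g h : Word) : (uu S g).length = (uu S h).length := by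
  rw [uu, uu, List.length_append, List.length_append, length_blk, length_blk]

/-- A fixed factorization and a uniform reduction of all recursively enumerable sets. -/
theorem hard : ∃ τ : List Entry, IsFactorization τ ∧
    ∀ p : ℕ → Prop, REPred p → ∃ X : ℕ → List Entry, Computable X ∧
      (∀ n, IsFactorization (X n) ∧ (X n).length = τ.length) ∧
      (∀ n, p n → HurwitzEquiv (τ.map dehn) ((X n).map dehn)) ∧
      ∀ n, ¬ p n → ∀ Γ : Subgroup OutPi, ¬ ConjEquiv Γ (τ.map dehn) ((X n).map dehn) := by
  obtain ⟨m, R, W, hW, hu⟩ := word_problem_univ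
  refine ⟨uu (S1 (rls R)) (Gw yw), uu_isFactorization _ _, fun p hp => ?_⟩
  obtain ⟨g, hg, hgp⟩ := re_reduces hp
  refine ⟨fun n => uu (S1 (rls R)) (Gw (vw (sb (W (g n))) yw)),
    (red_computable _ hW).comp hg, fun n => ⟨uu_isFactorization _ _, length_uu _ _ _⟩, ?_, ?_⟩
  · intro n hn
    exact equiv_of_mem' R ((hu _).2 ((hgp n).2 hn))
  · intro n hn Γ h
    exact hn ((hgp n).1 ((hu _).1 (mem_of_equiv' R h)))

theorem conjEquiv_mono {M : Type} [Group M] {Γ Δ : Subgroup M} (hle : Γ ≤ Δ) {u v : List M}
    (h : ConjEquiv Γ u v) : ConjEquiv Δ u v := by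
  induction h with
  | rel _ _ h =>
    apply Relation.EqvGen.rel
    cases h with
    | hurwitz _ h => exact Move.hurwitz _ _ h
    | conj g hg => exact Move.conj _ g (hle hg)
  | refl _ => exact Relation.EqvGen.refl _
  | symm _ _ _ h => exact Relation.EqvGen.symm _ _ h
  | trans _ _ _ _ _ h1 h2 => exact Relation.EqvGen.trans _ _ _ h1 h2

/-- A recursively enumerable set which is not recursive. -/
theorem exists_re : ∃ p : ℕ → Prop, REPred p ∧ ¬ ComputablePred p := by
  refine ⟨fun n => (Pool.Agent.Helper270.WPSource.u n).Dom, ?_,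
    Pool.Agent.Helper270.WPSource.u_not_computable⟩
  exact Pool.Agent.Helper270.WPSource.u_partrec.dom_re

end Pool.Agent.KS6_21.HZ
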